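import Pool.Agent.Y866.EC.Stm

set_option autoImplicit false

open Finset Filter Topology
open Pool.Agent.Y866.EC

namespace Pool.Agent.Y528.EC

theorem pt_zero {G : Type} [Group G] [DecidableEq G] (S : Finset G) (z : G) :
    pt S 0 z = if z = 1 then 1 else 0 := by
  simp [pt, qn]

theorem pt_succ {G : Type} [Group G] [DecidableEq G] (S : Finset G) (t : ℕ) (z : G) :
    pt S (t + 1) z = 1 / 2 * pt S t z + 1 / (2 * (S.card : ℝ)) * ∑ s ∈ S, pt S t (s⁻¹ * z) := by
  have h1 : ∑ n ∈ range (t + 1 + 1), ((t + 1).choose n : ℝ) * qn S n z =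
      ∑ n ∈ range (t + 1), (t.choose n : ℝ) * qn S (n + 1) z +
        ∑ n ∈ range (t + 1), (t.choose n : ℝ) * qn S n z := by
    rw [Finset.sum_range_succ' (fun n => ((t + 1).choose n : ℝ) * qn S n z)]
    have h2 : ∑ n ∈ range (t + 1), ((t + 1).choose (n + 1) : ℝ) * qn S (n + 1) z =
        ∑ n ∈ range (t + 1), (t.choose n : ℝ) * qn S (n + 1) z +
          ∑ n ∈ range (t + 1), (t.choose (n + 1) : ℝ) * qn S (n + 1) z := by
      rw [← Finset.sum_add_distrib]
      refine Finset.sum_congr rfl fun n _ => ?_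
      rw [Nat.choose_succ_succ]
      push_cast
      ring
    have h3 : ∑ n ∈ range (t + 1), (t.choose n : ℝ) * qn S n z =
        ∑ n ∈ range (t + 1), (t.choose (n + 1) : ℝ) * qn S (n + 1) z + qn S 0 z := by
      have h4 := Finset.sum_range_succ (fun n => (t.choose n : ℝ) * qn S n z) (t + 1)
      have h5 := Finset.sum_range_succ' (fun n => (t.choose n : ℝ) * qn S n z) (t + 1)
      rw [h4] at h5
      simp only [Nat.choose_succ_self, Nat.cast_zero, zero_mul, add_zero, Nat.choose_zero_right,
        Nat.cast_one, one_mul] at h5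
      exact h5
    rw [h2, h3]
    simp only [Nat.choose_zero_right, Nat.cast_one, one_mul]
    ring
  have h6 : ∑ n ∈ range (t + 1), (t.choose n : ℝ) * qn S (n + 1) z =
      1 / (S.card : ℝ) * ∑ s ∈ S, ∑ n ∈ range (t + 1), (t.choose n : ℝ) * qn S n (s⁻¹ * z) := by
    rw [Finset.sum_comm, Finset.mul_sum]
    refine Finset.sum_congr rfl fun n _ => ?_
    rw [qn, ← Finset.mul_sum]
    ring
  unfold pt
  rw [h1, h6, ← Finset.mul_sum, pow_succ]
  ring

/-- powers of the matrix of the lazy walk -/
theorem walk : S_WALK := by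
  intro G _ _ _ S _ t
  induction t with
  | zero =>
    intro x y
    rw [pow_zero, pt_zero, Matrix.one_apply]
    by_cases h : x = y
    · simp [h]
    · rw [if_neg h, if_neg]
      intro h1
      exact h (inv_mul_eq_one.1 h1)
  | succ t ih =>
    intro x y
    rw [pow_succ', Matrix.mul_apply, pt_succ]
    simp only [ih]
    have h1 : ∀ z, Pm S x z * pt S t (z⁻¹ * y) =
        (if x = z then 1 / 2 * pt S t (z⁻¹ * y) else 0) +
          (if x⁻¹ * z ∈ S then 1 / (2 * (S.card : ℝ)) * pt S t (z⁻¹ * y) else 0) := by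
      intro z
      unfold Pm
      split_ifs <;> ring
    rw [Finset.sum_congr rfl fun z _ => h1 z, Finset.sum_add_distrib, Finset.sum_ite_eq]
    simp only [Finset.mem_univ, if_true]
    congr 1
    rw [← Equiv.sum_comp (Equiv.mulLeft x), Finset.mul_sum]
    simp only [Equiv.coe_mulLeft, inv_mul_cancel_left, mul_inv_rev, mul_assoc]
    rw [Finset.sum_ite_mem, Finset.univ_inter]

end Pool.Agent.Y528.EC
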