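import Pool.Agent.Y866.EC.Stm

set_option autoImplicit false

open Finset Filter Topology
open Pool.Agent.Y866.EC

namespace Pool.Agent.Y528.EC

theorem W_congr {F : Type} [Fintype F] (n : ℕ) : ∀ {Φ Ψ : List F → ℝ},
    (∀ w, w.length = n → Φ w = Ψ w) → W n Φ = W n Ψ := by
  induction n with
  | zero => intro Φ Ψ h; exact h [] rfl
  | succ n ih =>
    intro Φ Ψ h
    simp only [W]
    exact Finset.sum_congr rfl fun c _ => ih fun w hw => h (c :: w) (by simp [hw])

theorem W_mono {F : Type} [Fintype F] (n : ℕ) : ∀ {Φ Ψ : List F → ℝ},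
    (∀ w, w.length = n → Φ w ≤ Ψ w) → W n Φ ≤ W n Ψ := by
  induction n with
  | zero => intro Φ Ψ h; exact h [] rfl
  | succ n ih =>
    intro Φ Ψ h
    simp only [W]
    exact Finset.sum_le_sum fun c _ => ih fun w hw => h (c :: w) (by simp [hw])

theorem W_add {F : Type} [Fintype F] (n : ℕ) : ∀ (Φ Ψ : List F → ℝ),
    W n (fun w => Φ w + Ψ w) = W n Φ + W n Ψ := by
  induction n with
  | zero => intro Φ Ψ; rfl
  | succ n ih =>
    intro Φ Ψ
    simp only [W]
    rw [← Finset.sum_add_distrib]
    exact Finset.sum_congr rfl fun c _ => ih _ _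

theorem W_mul {F : Type} [Fintype F] (n : ℕ) : ∀ (Φ : List F → ℝ) (a : ℝ),
    W n (fun w => a * Φ w) = a * W n Φ := by
  induction n with
  | zero => intro Φ a; rfl
  | succ n ih =>
    intro Φ a
    simp only [W]
    rw [Finset.mul_sum]
    exact Finset.sum_congr rfl fun c _ => ih _ _

theorem W_zero {F : Type} [Fintype F] (n : ℕ) : W n (fun _ : List F => (0 : ℝ)) = 0 := by
  have := W_mul n (fun _ : List F => (0 : ℝ)) 0
  simpa using this

theorem W_const {F : Type} [Fintype F] (n : ℕ) (a : ℝ) :
    W n (fun _ : List F => a) = a * (Fintype.card F : ℝ) ^ n := by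
  induction n with
  | zero => simp [W]
  | succ n ih =>
    simp only [W]
    rw [ih, Finset.sum_const, Finset.card_univ, nsmul_eq_mul, pow_succ]
    ring

theorem W_sum {F ι : Type} [Fintype F] (n : ℕ) (T : Finset ι) (Φ : ι → List F → ℝ) :
    W n (fun w => ∑ i ∈ T, Φ i w) = ∑ i ∈ T, W n (Φ i) := by
  classical
  induction T using Finset.induction_on with
  | empty => simp [W_zero]
  | insert a T ha ih =>
    simp only [Finset.sum_insert ha]
    rw [W_add, ih]

theorem W_succ' {F : Type} [Fintype F] (n : ℕ) (Φ : List F → ℝ) :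
    W (n + 1) Φ = W n (fun w => ∑ c : F, Φ (c :: w)) := by
  rw [W_sum]
  rfl

theorem sum_SS {F G : Type} [Fintype F] [Fintype G] [DecidableEq F] [DecidableEq G]
    (S : F → Finset G) (f : G × Multiplicative F → ℝ) :
    ∑ y ∈ SS S, f y = ∑ c : F, ∑ s ∈ S c, f (s, Multiplicative.ofAdd c) := by
  unfold SS
  rw [Finset.sum_filter, Fintype.sum_prod_type_right]
  rw [← Equiv.sum_comp Multiplicative.ofAdd]
  refine Finset.sum_congr rfl fun c _ => ?_
  simp only [toAdd_ofAdd]
  rw [Finset.sum_ite_mem, Finset.univ_inter]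

theorem card_SS {F G : Type} [Fintype F] [Fintype G] [DecidableEq F] [DecidableEq G]
    (S : F → Finset G) (κ : ℕ) (h : ∀ c, (S c).card = κ) :
    (SS S).card = Fintype.card F * κ := by
  have h1 := sum_SS S (fun _ => (1 : ℝ))
  simp only [Finset.sum_const, nsmul_eq_mul, mul_one, h, Finset.card_univ] at h1
  exact_mod_cast h1

/-- the walk on `G × F` and words -/
theorem word1 : S_WORD1 := by
  intro F G _ _ _ _ _ _ S κ hκ hS
  have hc := card_SS S κ hS
  refine ⟨hc, ?_⟩
  intro n
  induction n with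
  | zero =>
    intro g γ
    simp only [qn, W, mu, List.sum_nil, pow_zero, div_one]
    have e : ((g, Multiplicative.ofAdd γ) : G × Multiplicative F) = 1 ↔ g = 1 ∧ 0 = γ := by
      rw [Prod.ext_iff]
      simp only [Prod.fst_one, Prod.snd_one, ofAdd_eq_one]
      exact and_congr Iff.rfl eq_comm
    by_cases h1 : g = 1
    · by_cases h2 : (0 : F) = γ
      · rw [if_pos (e.2 ⟨h1, h2⟩), if_pos h2, if_pos h1]
      · rw [if_neg (fun h => h2 (e.1 h).2), if_neg h2]
    · rw [if_neg (fun h => h1 (e.1 h).1)]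
      split_ifs <;> rfl
  | succ n ih =>
    intro g γ
    rw [qn]
    beta_reduce
    rw [sum_SS, hc]
    have h1 : ∀ c : F, ∀ s : G,
        qn (SS S) n ((s, Multiplicative.ofAdd c)⁻¹ * (g, Multiplicative.ofAdd γ)) =
        (W n (fun w => if w.sum = -c + γ then mu S w (s⁻¹ * g) else 0)) /
          (Fintype.card F : ℝ) ^ n := by
      intro c s
      rw [← ih]
      rfl
    simp only [h1]
    rw [W]
    have h2 : ∀ c : F, W n (fun w => if (c :: w).sum = γ then mu S (c :: w) g else 0) =
        (∑ s ∈ S c, W n (fun w => if w.sum = -c + γ then mu S w (s⁻¹ * g) else 0)) / (κ : ℝ) := by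
      intro c
      rw [← W_sum, div_eq_inv_mul, ← W_mul]
      apply W_congr
      intro w _
      rw [List.sum_cons, mu, hS]
      by_cases h3 : c + w.sum = γ
      · have h4 : w.sum = -c + γ := by rw [← h3]; abel
        rw [if_pos h3]
        simp only [h4, if_true]
        rw [div_eq_inv_mul]
      · have h4 : ¬ w.sum = -c + γ := by
          intro h5; apply h3; rw [h5]; abel
        simp only [h3, h4, if_false, Finset.sum_const_zero, mul_zero]
    rw [Finset.sum_congr rfl fun c _ => h2 c]
    simp only [← Finset.sum_div]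
    push_cast
    rw [pow_succ, div_div, div_div]
    congr 1
    ring

end Pool.Agent.Y528.EC
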