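import Pool.Agent.Y528.EC.Word1

set_option autoImplicit false

open Finset Filter Topology
open Pool.Agent.Y866.EC

namespace Pool.Agent.Y528.EC

theorem word2a (F : Type) [AddCommGroup F] [Fintype F] [DecidableEq F] (n : ℕ) : ∀ γ : F,
    W (n + 1) (fun w => if w.sum = γ then (1 : ℝ) else 0) = (Fintype.card F : ℝ) ^ n := by
  induction n with
  | zero =>
    intro γ
    simp [W]
  | succ n ih =>
    intro γ
    rw [W]
    have h : ∀ c : F, W (n + 1) (fun w => if (c :: w).sum = γ then (1 : ℝ) else 0) =
        (Fintype.card F : ℝ) ^ n := by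
      intro c
      rw [← ih (γ - c)]
      apply W_congr
      intro w _
      rw [List.sum_cons]
      have h1 : c + w.sum = γ ↔ w.sum = γ - c := by
        constructor
        · intro h; rw [← h]; abel
        · intro h; rw [h]; abel
      simp only [h1]
    rw [Finset.sum_congr rfl fun c _ => h c, Finset.sum_const, Finset.card_univ, nsmul_eq_mul,
      pow_succ]
    ring

theorem word2b (F : Type) [AddCommGroup F] [Fintype F] [DecidableEq F] (n : ℕ) :
    W n (fun w => if (0 : F) ∈ w then (1 : ℝ) else 0) * (Fintype.card F : ℝ) ≤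
      n * (Fintype.card F : ℝ) ^ n := by
  induction n with
  | zero => simp [W]
  | succ n ih =>
    have hq : (0 : ℝ) ≤ (Fintype.card F : ℝ) := Nat.cast_nonneg _
    have h1 : W (n + 1) (fun w => if (0 : F) ∈ w then (1 : ℝ) else 0) ≤
        ∑ c : F, ((if c = 0 then (Fintype.card F : ℝ) ^ n else 0) +
          W n (fun w => if (0 : F) ∈ w then (1 : ℝ) else 0)) := by
      rw [W]
      refine Finset.sum_le_sum fun c _ => ?_
      have h2 : (if c = 0 then (Fintype.card F : ℝ) ^ n else 0) =
          W n (fun _ : List F => if c = 0 then (1 : ℝ) else 0) := by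
        rw [W_const]
        split_ifs <;> simp
      rw [h2, ← W_add]
      apply W_mono
      intro w _
      by_cases h3 : c = 0
      · subst h3
        rw [if_pos (by simp), if_pos rfl]
        split_ifs <;> simp
      · rw [if_neg h3, zero_add]
        have h4 : (0 : F) ∈ c :: w ↔ (0 : F) ∈ w := by
          rw [List.mem_cons]
          exact or_iff_right (fun h => h3 h.symm)
        simp only [h4]
        exact le_rfl
    rw [Finset.sum_add_distrib, Finset.sum_ite_eq', if_pos (Finset.mem_univ _), Finset.sum_const,
      Finset.card_univ, nsmul_eq_mul] at h1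
    have h5 := mul_le_mul_of_nonneg_right h1 hq
    have h6 := mul_le_mul_of_nonneg_left ih hq
    push_cast
    rw [pow_succ]
    nlinarith

/-- weight of a word -/
noncomputable def ee {F : Type} [DecidableEq F] (w : List F) : ℝ := (1 / 2) ^ w.toFinset.card

theorem ee_pos {F : Type} [DecidableEq F] (w : List F) : 0 < ee w := by
  unfold ee
  positivity

theorem sum_ee {F : Type} [Fintype F] [DecidableEq F] (w : List F) :
    ∑ c : F, ee (c :: w) ≤ ((Fintype.card F : ℝ) + w.length) / 2 * ee w := by
  have h1 : ∀ c : F, ee (c :: w) = (1 / 2) * ee w + (if c ∈ w.toFinset then (1 / 2) * ee w else 0) := by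
    intro c
    unfold ee
    rw [List.toFinset_cons]
    by_cases h : c ∈ w.toFinset
    · rw [Finset.insert_eq_of_mem h, if_pos h]
      ring
    · rw [Finset.card_insert_of_notMem h, if_neg h, pow_succ]
      ring
  rw [Finset.sum_congr rfl fun c _ => h1 c, Finset.sum_add_distrib, Finset.sum_const,
    Finset.card_univ, nsmul_eq_mul, Finset.sum_ite_mem, Finset.univ_inter, Finset.sum_const,
    nsmul_eq_mul]
  have h2 : (w.toFinset.card : ℝ) ≤ w.length := by
    exact_mod_cast List.toFinset_card_le w
  have h3 := ee_pos w
  nlinarith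

theorem W_ee (F : Type) [Fintype F] [DecidableEq F] (N n : ℕ) (h : n ≤ N) :
    W n (fun w : List F => ee w) ≤ (((Fintype.card F : ℝ) + N) / 2) ^ n := by
  induction n with
  | zero => simp [W, ee]
  | succ n ih =>
    rw [W_succ']
    have h1 : W n (fun w : List F => ∑ c : F, ee (c :: w)) ≤
        W n (fun w : List F => ((Fintype.card F : ℝ) + N) / 2 * ee w) := by
      apply W_mono
      intro w hw
      refine (sum_ee w).trans ?_
      apply mul_le_mul_of_nonneg_right _ (ee_pos w).le
      have : (w.length : ℝ) ≤ N := by
        rw [hw]; exact_mod_cast (Nat.le_of_succ_le h)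
      linarith
    rw [W_mul] at h1
    refine h1.trans ?_
    rw [pow_succ, mul_comm]
    exact mul_le_mul_of_nonneg_right (ih (Nat.le_of_succ_le h)) (by positivity)

theorem word2c (F : Type) [Fintype F] [DecidableEq F] (m n : ℕ) :
    W n (fun w : List F => if w.toFinset.card < m then (1 : ℝ) else 0) ≤
      2 ^ m * (((Fintype.card F : ℝ) + n) / 2) ^ n := by
  have h1 : W n (fun w : List F => if w.toFinset.card < m then (1 : ℝ) else 0) ≤
      W n (fun w : List F => 2 ^ m * ee w) := by
    apply W_mono
    intro w _
    split_ifs with h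
    · unfold ee
      obtain ⟨k, hk⟩ := Nat.exists_eq_add_of_lt h
      rw [hk, add_assoc, pow_add, mul_assoc, mul_comm ((2 : ℝ) ^ (k + 1)), ← mul_assoc,
        ← mul_pow]
      norm_num
      exact one_le_pow₀ (by norm_num)
    · have := ee_pos w
      positivity
  refine h1.trans ?_
  rw [W_mul]
  exact mul_le_mul_of_nonneg_left (W_ee F n n le_rfl) (by positivity)

/-- counting words -/
theorem word2 : S_WORD2 := by
  intro F _ _ _
  exact ⟨fun n γ => word2a F n γ, fun n => word2b F n, fun m n => word2c F m n⟩

theorem W_Ai (F : Type) [Zero F] [Fintype F] [DecidableEq F] (n : ℕ) :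
    W n (fun w : List F => Ai w) = ((Fintype.card F : ℝ) - 1) ^ n := by
  induction n with
  | zero => simp [W, Ai]
  | succ n ih =>
    rw [W]
    have h : ∀ c : F, W n (fun w => Ai (c :: w)) =
        ((Fintype.card F : ℝ) - 1) ^ n - (if c = 0 then ((Fintype.card F : ℝ) - 1) ^ n else 0) := by
      intro c
      by_cases h1 : c = 0
      · subst h1
        simp only [Ai, if_true, sub_self]
        exact W_zero n
      · simp only [Ai, h1, if_false, sub_zero]
        exact ih
    rw [Finset.sum_congr rfl fun c _ => h c, Finset.sum_sub_distrib, Finset.sum_const,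
      Finset.card_univ, nsmul_eq_mul, Finset.sum_ite_eq', if_pos (Finset.mem_univ _), pow_succ]
    ring

theorem W_Ni (F : Type) [Zero F] [Fintype F] [DecidableEq F] (n : ℕ) : ∀ i : ℕ, i ≤ n →
    W (n + 1) (Ni (F := F) i) = ((Fintype.card F : ℝ) - 1) ^ n := by
  have base : ∀ n : ℕ, W (n + 1) (Ni (F := F) 0) = ((Fintype.card F : ℝ) - 1) ^ n := by
    intro n
    rw [W]
    have h : ∀ c : F, W n (fun w => Ni 0 (c :: w)) =
        (if c = 0 then ((Fintype.card F : ℝ) - 1) ^ n else 0) := by
      intro c
      by_cases h1 : c = 0
      · subst h1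
        simp only [Ni, if_true]
        exact W_Ai F n
      · simp only [Ni, h1, if_false]
        exact W_zero n
    rw [Finset.sum_congr rfl fun c _ => h c, Finset.sum_ite_eq', if_pos (Finset.mem_univ _)]
  induction n with
  | zero =>
    intro i hi
    rw [Nat.le_zero.1 hi]
    exact base 0
  | succ n ih =>
    intro i hi
    rcases i with _ | i
    · exact base (n + 1)
    · rw [W]
      have h : ∀ c : F, W (n + 1) (fun w => Ni (i + 1) (c :: w)) =
          ((Fintype.card F : ℝ) - 1) ^ n -
            (if c = 0 then ((Fintype.card F : ℝ) - 1) ^ n else 0) := by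
        intro c
        by_cases h1 : c = 0
        · subst h1
          simp only [Ni, if_true, sub_self]
          exact W_zero _
        · simp only [Ni, h1, if_false, sub_zero]
          exact ih i (Nat.le_of_succ_le_succ hi)
      rw [Finset.sum_congr rfl fun c _ => h c, Finset.sum_sub_distrib, Finset.sum_const,
        Finset.card_univ, nsmul_eq_mul, Finset.sum_ite_eq', if_pos (Finset.mem_univ _), pow_succ]
      ring

theorem Ai_nonneg {F : Type} [Zero F] [DecidableEq F] (w : List F) : 0 ≤ Ai w := by
  induction w with
  | nil => simp [Ai]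
  | cons c w ih =>
    simp only [Ai]
    split_ifs
    · exact le_rfl
    · exact ih

theorem Ni_nonneg {F : Type} [Zero F] [DecidableEq F] (w : List F) : ∀ i, 0 ≤ Ni i w := by
  induction w with
  | nil => intro i; simp [Ni]
  | cons c w ih =>
    intro i
    rcases i with _ | i
    · simp only [Ni]
      split_ifs
      · exact Ai_nonneg w
      · exact le_rfl
    · simp only [Ni]
      split_ifs
      · exact le_rfl
      · exact ih i

theorem sum_Ni {F : Type} [Zero F] [DecidableEq F] (w : List F) : ∀ N : ℕ,
    Ai w + ∑ i ∈ range N, Ni i w ≤ 1 := by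
  induction w with
  | nil => intro N; simp [Ai, Ni]
  | cons c w ih =>
    intro N
    rcases N with _ | N
    · have h1 := ih 0
      rw [Finset.sum_range_zero, add_zero] at h1 ⊢
      simp only [Ai]
      split_ifs
      · exact zero_le_one
      · exact h1
    · rw [Finset.sum_range_succ']
      simp only [Ai, Ni]
      by_cases h1 : c = 0
      · simp only [h1, if_true, Finset.sum_const_zero, zero_add]
        have := ih 0
        rwa [Finset.sum_range_zero, add_zero] at this
      · simp only [h1, if_false, add_zero]
        exact ih N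

theorem Ai_ne {F : Type} [Zero F] [DecidableEq F] (w : List F) (h : Ai w ≠ 0) : (0 : F) ∉ w := by
  induction w with
  | nil => simp
  | cons c w ih =>
    simp only [Ai] at h
    split_ifs at h with h1
    · exact absurd rfl h
    · rw [List.mem_cons, not_or]
      exact ⟨fun h2 => h1 h2.symm, ih h⟩

theorem Ni_ne {F : Type} [Zero F] [DecidableEq F] (w : List F) : ∀ i, Ni i w ≠ 0 →
    ∃ u u' : List F, w = u ++ 0 :: u' ∧ u.length = i ∧ (0 : F) ∉ u ∧ (0 : F) ∉ u' := by
  induction w with
  | nil => intro i h; simp [Ni] at h
  | cons c w ih =>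
    intro i h
    rcases i with _ | i
    · simp only [Ni] at h
      split_ifs at h with h1
      · exact ⟨[], w, by rw [h1]; rfl, rfl, by simp, Ai_ne w h⟩
      · exact absurd rfl h
    · simp only [Ni] at h
      split_ifs at h with h1
      · exact absurd rfl h
      · obtain ⟨u, u', h2, h3, h4, h5⟩ := ih i h
        refine ⟨c :: u, u', by rw [h2]; rfl, by rw [List.length_cons, h3], ?_, h5⟩
        rw [List.mem_cons, not_or]
        exact ⟨fun h2 => h1 h2.symm, h4⟩

/-- words with exactly one zero -/
theorem word3 : S_WORD3 := by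
  intro F _ _ _
  refine ⟨fun n i h => W_Ni F n i h, fun I w => ⟨?_, ?_⟩, fun i w h => Ni_ne w i h⟩
  · exact Finset.sum_nonneg fun i _ => Ni_nonneg w i
  · have h1 : ∑ i ∈ I, Ni i w ≤ ∑ i ∈ range (I.sup id + 1), Ni i w := by
      apply Finset.sum_le_sum_of_subset_of_nonneg
      · intro i hi
        rw [Finset.mem_range]
        exact Nat.lt_succ_of_le (Finset.le_sup (f := id) hi)
      · intro i _ _
        exact Ni_nonneg w i
    have h2 := sum_Ni w (I.sup id + 1)
    have h3 := Ai_nonneg w
    linarith

end Pool.Agent.Y528.EC
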